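import Pool.Agent.N496.QF.Defs

/-!
# Covering lemmas
-/

set_option autoImplicit false

namespace Pool.Agent.N496.QF

open scoped Topology unitInterval

section Cov

variable {X : Type} {τ : X → X}

/-- The free involution of `E × X`. -/
def flip (τ : X → X) (p : E × X) : E × X := (⟨-p.1.1, neg_ne_zero.2 p.1.2⟩, τ p.2)

lemma flip_flip (hi : ∀ x, τ (τ x) = x) (p : E × X) : flip τ (flip τ p) = p := by
  rcases p with ⟨⟨v, hv⟩, x⟩
  simp only [flip, neg_neg, hi]

lemma rel_iff (p q : E × X) : (q.1.1 = -p.1.1 ∧ q.2 = τ p.2) ↔ q = flip τ p := by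
  constructor
  · rintro ⟨h1, h2⟩
    exact Prod.ext (Subtype.ext h1) h2
  · rintro rfl
    exact ⟨rfl, rfl⟩

lemma mk_flip (p : E × X) : (Quot.mk _ (flip τ p) : Bor τ) = Quot.mk _ p :=
  (Quot.sound ⟨rfl, rfl⟩).symm

lemma mk_eq_iff (hi : ∀ x, τ (τ x) = x) (p q : E × X) :
    (Quot.mk _ p : Bor τ) = Quot.mk _ q ↔ q = p ∨ q = flip τ p := by
  constructor
  · intro h
    have h' := Quot.eqvGen_exact h
    clear h
    induction h' with
    | rel p q h => exact Or.inr ((rel_iff p q).1 h)
    | refl p => exact Or.inl rfl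
    | symm p q _ ih =>
      rcases ih with ih | ih
      · exact Or.inl ih.symm
      · right
        rw [ih, flip_flip hi]
    | trans p q r _ _ ih1 ih2 =>
      rcases ih1 with ih1 | ih1 <;> rcases ih2 with ih2 | ih2
      · exact Or.inl (ih2.trans ih1)
      · right
        rw [ih2, ih1]
      · right
        rw [ih2, ih1]
      · left
        rw [ih2, ih1, flip_flip hi]
  · rintro (rfl | rfl)
    · rfl
    · exact (mk_flip p).symm

lemma orb_eq_iff (hi : ∀ x, τ (τ x) = x) (x y : X) :
    (Quot.mk _ x : Orb τ) = Quot.mk _ y ↔ y = x ∨ y = τ x := by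
  constructor
  · intro h
    have h' := Quot.eqvGen_exact h
    clear h
    induction h' with
    | rel p q h => exact Or.inr h
    | refl p => exact Or.inl rfl
    | symm p q _ ih =>
      rcases ih with ih | ih
      · exact Or.inl ih.symm
      · right
        rw [ih, hi]
    | trans p q r _ _ ih1 ih2 =>
      rcases ih1 with ih1 | ih1 <;> rcases ih2 with ih2 | ih2
      · exact Or.inl (ih2.trans ih1)
      · right
        rw [ih2, ih1]
      · right
        rw [ih2, ih1]
      · left
        rw [ih2, ih1, hi]
  · rintro (rfl | rfl)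
    · rfl
    · exact Quot.sound rfl

lemma pt_mk (p : E × X) : pt τ (Quot.mk _ p) = Quot.mk _ p.2 := rfl

instance : T2Space E := inferInstanceAs (T2Space {v : ℕ → ℝ // v ≠ 0})

variable [TopologicalSpace X]

lemma continuous_flip (hc : Continuous τ) : Continuous (flip τ) := by
  refine Continuous.prodMk (Continuous.subtype_mk ?_ _) (hc.comp continuous_snd)
  exact (continuous_subtype_val.comp continuous_fst).neg

/-- The action of `{1, -1}` on `E × X`. -/
@[reducible] def act (hi : ∀ x, τ (τ x) = x) : MulAction ℤˣ (E × X) where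
  smul u p := if u = 1 then p else flip τ p
  one_smul p := if_pos rfl
  mul_smul u v p := by
    change (if u * v = 1 then p else flip τ p) =
      (if u = 1 then (if v = 1 then p else flip τ p) else flip τ (if v = 1 then p else flip τ p))
    rcases Int.units_eq_one_or u with rfl | rfl <;> rcases Int.units_eq_one_or v with rfl | rfl
    · simp
    · simp
    · simp
    · simp [flip_flip hi]

lemma isCovering_mk [T2Space X] (hc : Continuous τ) (hi : ∀ x, τ (τ x) = x) :
    IsCoveringMap (Quot.mk _ : E × X → Bor τ) := by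
  let _ := act hi
  have smul_def : ∀ (u : ℤˣ) (p : E × X), u • p = if u = 1 then p else flip τ p := fun _ _ => rfl
  have h : IsQuotientCoveringMap (Quot.mk _ : E × X → Bor τ) ℤˣ :=
    { toIsQuotientMap := isQuotientMap_quot_mk
      continuous_const_smul := by
        intro u
        rcases Int.units_eq_one_or u with rfl | rfl
        · simp only [one_smul]
          exact continuous_id
        · have : (fun p : E × X => (-1 : ℤˣ) • p) = flip τ := by
            funext p
            rw [smul_def, if_neg (by decide)]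
          rw [this]
          exact continuous_flip hc
      apply_eq_iff_mem_orbit := by
        intro p q
        rw [mk_eq_iff hi]
        constructor
        · rintro (h | h)
          · exact ⟨1, by simp [h]⟩
          · refine ⟨-1, ?_⟩
            change (-1 : ℤˣ) • q = p
            rw [smul_def, if_neg (by decide), h, flip_flip hi]
        · rintro ⟨u, rfl⟩
          change q = u • q ∨ q = flip τ (u • q)
          rcases Int.units_eq_one_or u with rfl | rfl
          · left
            simp
          · right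
            rw [smul_def, if_neg (by decide), flip_flip hi]
      disjoint := by
        intro p
        have hne : p ≠ flip τ p := by
          intro h
          have h1 : p.1.1 = -p.1.1 := congrArg (fun r : E × X => r.1.1) h
          refine p.1.2 ?_
          funext i
          have h2 := congrFun h1 i
          simp only [Pi.neg_apply] at h2
          simp only [Pi.zero_apply]
          linarith
        obtain ⟨U, V, hU, hV, hpU, hpV, hUV⟩ := t2_separation hne
        refine ⟨U ∩ flip τ ⁻¹' V, Filter.inter_mem (hU.mem_nhds hpU)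
          ((hV.preimage (continuous_flip hc)).mem_nhds hpV), ?_⟩
        intro u hu
        rcases Int.units_eq_one_or u with rfl | rfl
        · rfl
        · exfalso
          obtain ⟨_, ⟨a, ⟨_, ha⟩, rfl⟩, hb, _⟩ := hu
          have : (-1 : ℤˣ) • a = flip τ a := by rw [smul_def, if_neg (by decide)]
          simp only [this] at hb
          exact Set.disjoint_left.1 hUV hb ha }
  exact h.isCoveringMap

end Cov

section Wind

variable {A : Type} [TopologicalSpace A] [PreconnectedSpace A]

lemma const_of_exp {B : Type} [TopologicalSpace B] [PreconnectedSpace B] (f : B → ℂ) (hf : Continuous f)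
    (h : ∀ a b, Complex.exp (f a) = Complex.exp (f b)) (a b : B) : f a = f b :=
  Complex.isCoveringMap_exp.const_of_comp hf (fun a b => Subtype.ext (h a b)) a b

lemma sub_const {B : Type} [TopologicalSpace B] [PreconnectedSpace B] (f g : B → ℂ) (hf : Continuous f)
    (hg : Continuous g) (h : ∀ a, Complex.exp (f a) = Complex.exp (g a)) (a b : B) : f a - g a = f b - g b := by
  have h1 : ∀ x, Complex.exp ((fun y => f y - g y) x) = 1 := by
    intro x
    simp only [Complex.exp_sub, h x]
    exact div_self (Complex.exp_ne_zero _)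
  exact const_of_exp (fun y => f y - g y) (hf.sub hg) (fun a b => (h1 a).trans (h1 b).symm) a b

lemma exists_log (G : I × A → ℂ) (hG : Continuous G) (h0 : ∀ p, G p ≠ 0) (g : A → ℂ) (hg : Continuous g)
    (h : ∀ a, Complex.exp (g a) = G (0, a)) :
    ∃ L : I × A → ℂ, Continuous L ∧ (∀ p, Complex.exp (L p) = G p) ∧ ∀ a, L (0, a) = g a := by
  let H : C(I × A, {z : ℂ // z ≠ 0}) := ⟨fun p => ⟨G p, h0 p⟩, hG.subtype_mk _⟩
  have H0 : ∀ a, H (0, a) = (fun z : ℂ ↦ (⟨_, z.exp_ne_zero⟩ : {z : ℂ // z ≠ 0})) ((⟨g, hg⟩ : C(A, ℂ)) a) :=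
    fun a => Subtype.ext (h a).symm
  refine ⟨Complex.isCoveringMap_exp.liftHomotopy H ⟨g, hg⟩ H0, ContinuousMap.continuous _, ?_, ?_⟩
  · intro p
    exact congrArg Subtype.val (congrFun (Complex.isCoveringMap_exp.liftHomotopy_lifts H ⟨g, hg⟩ H0) p)
  · intro a
    exact Complex.isCoveringMap_exp.liftHomotopy_zero H ⟨g, hg⟩ H0 a

/-- Two nonvanishing functions on `I × A` which are constant on `I × {a₀}` and `I × {a₁}` and which agree on
`{1} × A` have equal variation of the logarithm along `{0} × A`. -/
lemma wind_eq (a₀ a₁ : A) (G R : I × A → ℂ) (hG : Continuous G) (hR : Continuous R)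
    (hG0 : ∀ p, G p ≠ 0) (hR0 : ∀ p, R p ≠ 0) (h1 : ∀ a, G (1, a) = R (1, a))
    (g r : A → ℂ) (hg : Continuous g) (hr : Continuous r) (hge : ∀ a, Complex.exp (g a) = G (0, a))
    (hre : ∀ a, Complex.exp (r a) = R (0, a))
    (hGb : ∀ s, G (s, a₀) = G (0, a₀) ∧ G (s, a₁) = G (0, a₁))
    (hRb : ∀ s, R (s, a₀) = R (0, a₀) ∧ R (s, a₁) = R (0, a₁)) :
    g a₁ - g a₀ = r a₁ - r a₀ := by
  obtain ⟨L, hL, hLe, hL0⟩ := exists_log G hG hG0 g hg hge
  obtain ⟨M, hM, hMe, hM0⟩ := exists_log R hR hR0 r hr hre
  have bd : ∀ (N : I × A → ℂ) (F : I × A → ℂ) (a : A), Continuous N → (∀ p, Complex.exp (N p) = F p) →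
      (∀ s, F (s, a) = F (0, a)) → N (1, a) = N (0, a) := by
    intro N F a hN hNe hF
    exact const_of_exp (fun s : I => N (s, a)) (hN.comp (by fun_prop))
      (fun s t => by simp only [hNe]; rw [hF s, hF t]) 1 0
  have e1 := bd L G a₀ hL hLe fun s => (hGb s).1
  have e2 := bd L G a₁ hL hLe fun s => (hGb s).2
  have e3 := bd M R a₀ hM hMe fun s => (hRb s).1
  have e4 := bd M R a₁ hM hMe fun s => (hRb s).2
  have e5 := sub_const (fun a => L (1, a)) (fun a => M (1, a)) (hL.comp (by fun_prop)) (hM.comp (by fun_prop))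
    (fun a => by rw [hLe, hMe, h1]) a₀ a₁
  rw [e1, e2, e3, e4, hL0, hL0, hM0, hM0] at e5
  linear_combination -e5

end Wind

end Pool.Agent.N496.QF
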