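import Mathlib

/-!
# Configuration orbifolds of global quotient orbifolds by an involution

`M = X / τ` is the quotient orbifold of a space (manifold) `X` by a continuous involution `τ`. The classifying space
of its translation groupoid is the Borel construction `Bor τ = E ×_{Z/2} X`.
-/

set_option autoImplicit false

namespace Pool.Agent.N496.QF

open scoped Topology

/-- The contractible space `E` with the free involution `v ↦ -v`: the nonzero real sequences, with the topology of
pointwise convergence. -/
def E : Type := {v : ℕ → ℝ // v ≠ 0}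

instance : TopologicalSpace E := instTopologicalSpaceSubtype

/-- The shift `(v₀, v₁, …) ↦ (0, v₀, v₁, …)`. -/
def shift (v : ℕ → ℝ) : ℕ → ℝ := fun i => Nat.casesOn i 0 v

lemma shift_succ (v : ℕ → ℝ) (i : ℕ) : shift v (i + 1) = v i := rfl

lemma continuous_shift : Continuous shift :=
  continuous_pi fun i => by cases i with
    | zero => exact continuous_const
    | succ i => exact continuous_apply i

/-- `E` is contractible. -/
instance : ContractibleSpace E := by
  rw [contractible_iff_id_nullhomotopic]
  let e : ℕ → ℝ := fun i => if i = 0 then 1 else 0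
  have h1 : ∀ (t : unitInterval) (v : E), (1 - (t : ℝ)) • v.1 + (t : ℝ) • shift v.1 ≠ 0 := by
    intro t v h
    rcases eq_or_ne (1 - (t : ℝ)) 0 with ht | ht
    · refine v.2 (funext fun i => ?_)
      have := congrFun h (i + 1)
      have ht' : (t : ℝ) = 1 := by linarith
      simpa [ht, ht', shift_succ] using this
    · refine v.2 (funext fun i => ?_)
      induction i with
      | zero =>
        have := congrFun h 0
        simpa [shift, ht] using this
      | succ i ih =>
        have := congrFun h (i + 1)
        simp only [Pi.add_apply, Pi.smul_apply, shift_succ, ih, smul_eq_mul, Pi.zero_apply, mul_zero, add_zero] at this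
        simpa [ht] using this
  have h2 : ∀ (t : unitInterval) (v : E), (1 - (t : ℝ)) • shift v.1 + (t : ℝ) • e ≠ 0 := by
    intro t v h
    have h0 : (t : ℝ) = 0 := by simpa [shift, e] using congrFun h 0
    refine v.2 (funext fun i => ?_)
    have := congrFun h (i + 1)
    simpa [h0, shift_succ] using this
  have he : e ≠ 0 := fun h => by simpa [e] using congrFun h 0
  have hs : ∀ v : E, shift v.1 ≠ 0 := fun v h => v.2 (funext fun i => congrFun h (i + 1))
  let S : C(E, E) := ⟨fun v => ⟨shift v.1, hs v⟩, (continuous_shift.comp continuous_subtype_val).subtype_mk _⟩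
  have c1 : Continuous fun p : unitInterval × E => p.2.1 := continuous_subtype_val.comp continuous_snd
  have c2 : Continuous fun p : unitInterval × E => (p.1 : ℝ) := continuous_subtype_val.comp continuous_fst
  have c3 : Continuous fun p : unitInterval × E => shift p.2.1 := continuous_shift.comp c1
  refine ⟨⟨e, he⟩, ContinuousMap.Homotopic.trans (g := S) ⟨⟨⟨fun p => ⟨_, h1 p.1 p.2⟩, ?_⟩, ?_, ?_⟩⟩
    ⟨⟨⟨fun p => ⟨_, h2 p.1 p.2⟩, ?_⟩, ?_, ?_⟩⟩⟩
  · exact (((continuous_const.sub c2).smul c1).add (c2.smul c3)).subtype_mk _
  · intro v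
    exact Subtype.ext (by simp)
  · intro v
    refine Subtype.ext ?_
    change (1 - (1 : ℝ)) • v.1 + (1 : ℝ) • shift v.1 = shift v.1
    simp
  · exact (((continuous_const.sub c2).smul c3).add (c2.smul continuous_const)).subtype_mk _
  · intro v
    refine Subtype.ext ?_
    change (1 - (0 : ℝ)) • shift v.1 + (0 : ℝ) • e = shift v.1
    simp
  · intro v
    refine Subtype.ext ?_
    change (1 - (1 : ℝ)) • shift v.1 + (1 : ℝ) • e = e
    simp

variable {X : Type} [TopologicalSpace X] (τ : X → X)

/-- The Borel construction `E ×_{Z/2} X`, the classifying space of the translation groupoid of the action of `Z/2` on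
`X` by the involution `τ`: the quotient of `E × X` by `(v, x) ∼ (-v, τ x)`. -/
def Bor : Type := Quot fun p q : E × X => q.1.1 = -p.1.1 ∧ q.2 = τ p.2

instance : TopologicalSpace (Bor τ) := instTopologicalSpaceQuot

/-- The underlying set of the orbifold `M = X / τ`. -/
def Orb : Type := Quot fun x y : X => y = τ x

/-- The projection of the classifying space to the underlying set of `M`. -/
def pt : Bor τ → Orb τ := Quot.map Prod.snd fun _ _ h => h.2

/-- The point of `Bor τ` lies over a smooth point of `M`, that is a point with trivial isotropy group. -/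
def IsSmooth (b : Bor τ) : Prop := ∀ (v : E) (x : X), b = Quot.mk _ (v, x) → τ x ≠ x

/-- The classifying space of the configuration orbifold `PB_n(M)`: the part of the classifying space `(Bor τ)^n` of the
orbifold `M^n` over the tuples of distinct points of `M`. -/
def PB (n : ℕ) : Type := {e : Fin n → Bor τ // ∀ i j, i ≠ j → pt τ (e i) ≠ pt τ (e j)}

instance (n : ℕ) : TopologicalSpace (PB τ n) := instTopologicalSpaceSubtype

/-- The map `f(M) : PB_{n+1}(M) → PB_n(M)` which forgets the last point. -/
def forget (n : ℕ) : C(PB τ (n + 1), PB τ n) where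
  toFun e := ⟨fun i => e.1 i.castSucc, fun _ _ h => e.2 _ _ fun h' => h (Fin.castSucc_injective n h')⟩
  continuous_toFun := Continuous.subtype_mk
    (continuous_pi fun i => (continuous_apply i.castSucc).comp continuous_subtype_val) _

variable {τ}

/-- The classifying space of the fibre `F_y = M ∖ {y_1, …, y_n}` of `f(M)`, for `y` in `PB_n(M)`. -/
def Fib {n : ℕ} (y : PB τ n) : Type := {b : Bor τ // ∀ j, pt τ b ≠ pt τ (y.1 j)}

instance {n : ℕ} (y : PB τ n) : TopologicalSpace (Fib y) := instTopologicalSpaceSubtype

omit [TopologicalSpace X] in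
lemma snoc_distinct {n : ℕ} (y : PB τ n) (b : Fib y) (i j : Fin (n + 1)) (h : i ≠ j) :
    pt τ (Fin.snoc (α := fun _ => Bor τ) y.1 b.1 i) ≠ pt τ (Fin.snoc (α := fun _ => Bor τ) y.1 b.1 j) := by
  induction i using Fin.lastCases with
  | last =>
    induction j using Fin.lastCases with
    | last => exact absurd rfl h
    | cast j => simpa using b.2 j
  | cast i =>
    induction j using Fin.lastCases with
    | last => simpa using (b.2 i).symm
    | cast j => simpa using y.2 i j fun h' => h (by rw [h'])

lemma snoc_continuous {n : ℕ} (y : PB τ n) (i : Fin (n + 1)) :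
    Continuous fun b : Fib y => (Fin.snoc (α := fun _ => Bor τ) y.1 b.1 i : Bor τ) := by
  induction i using Fin.lastCases with
  | last =>
    have h : Continuous fun b : Fib y => b.1 := continuous_subtype_val
    simpa using h
  | cast i => simpa using continuous_const

/-- The inclusion `i : F_y → PB_{n+1}(M)`, `x ↦ (y_1, …, y_n, x)`. -/
def incl {n : ℕ} (y : PB τ n) : C(Fib y, PB τ (n + 1)) where
  toFun b := ⟨Fin.snoc (α := fun _ => Bor τ) y.1 b.1, snoc_distinct y b⟩
  continuous_toFun := Continuous.subtype_mk (continuous_pi (snoc_continuous y)) _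

/-- The homomorphism `π_q(A, a) → π_q(B, g a)` induced by a continuous map `g`, as a map. -/
def piMap {A B : Type} [TopologicalSpace A] [TopologicalSpace B] (g : C(A, B)) (a : A) (q : ℕ) :
    HomotopyGroup (Fin q) A a → HomotopyGroup (Fin q) B (g a) :=
  Quotient.map (fun p => ⟨g.comp p.1, fun t ht => congrArg g (p.2 t ht)⟩)
    fun _ _ h => h.map fun H => H.compContinuousMap g

/-- The sequence `⋯ → π_q(F, x) → π_q(E, i x) → π_q(B, f (i x)) → π_{q-1}(F, x) → ⋯ → π_1(E, i x) → π_1(B, f (i x)) → 1`
is exact for some homomorphisms `∂`. -/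
def HasExactSequence {F T B : Type} [TopologicalSpace F] [TopologicalSpace T] [TopologicalSpace B]
    (i : C(F, T)) (f : C(T, B)) (x : F) : Prop :=
  ∃ δ : ∀ q : ℕ, HomotopyGroup (Fin (q + 2)) B (f (i x)) →* HomotopyGroup (Fin (q + 1)) F x,
    (∀ (q : ℕ) (a : HomotopyGroup (Fin (q + 1)) T (i x)),
      piMap f (i x) (q + 1) a = 1 ↔ a ∈ Set.range (piMap i x (q + 1))) ∧
    (∀ (q : ℕ) (b : HomotopyGroup (Fin (q + 2)) B (f (i x))),
      δ q b = 1 ↔ b ∈ Set.range (piMap f (i x) (q + 2))) ∧
    (∀ (q : ℕ) (c : HomotopyGroup (Fin (q + 1)) F x),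
      piMap i x (q + 1) c = 1 ↔ c ∈ Set.range (δ q)) ∧
    Function.Surjective (piMap f (i x) 1)

variable (τ)

/-- The map `f(M) : PB_{n+1}(M) → PB_n(M)` is a quasifibration: for all `y` over smooth points of `PB_n(M)` and all
`x` in the fibre the sequence of orbifold homotopy groups is exact for some homomorphisms `∂`. -/
def IsQuasifibration (n : ℕ) : Prop :=
  ∀ y : PB τ n, (∀ j, IsSmooth τ (y.1 j)) → ∀ x : Fib y, HasExactSequence (incl y) (forget τ n) x

end Pool.Agent.N496.QF
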