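import Pool.Agent.N496.QF.Mirror

/-!
# The map `f(M)` is not a quasifibration for the half-plane with a reflector line
-/

set_option autoImplicit false

namespace Pool.Agent.N496.QF

open scoped Topology unitInterval

/-- the representative in the lower half-plane -/
noncomputable def low (z : ℂ) : ℂ := ⟨z.re, -|z.im|⟩

lemma continuous_low : Continuous low := by
  have h : low = fun z => ((z.re : ℝ) : ℂ) + ((-|z.im| : ℝ) : ℂ) * Complex.I := by
    funext z
    apply Complex.ext <;> simp [low]
  rw [h]
  refine Continuous.add (Complex.continuous_ofReal.comp Complex.continuous_re) (Continuous.mul ?_ continuous_const)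
  exact Complex.continuous_ofReal.comp (Complex.continuous_im.abs.neg)

lemma low_eq (z : ℂ) : low z = z ∨ low z = cj z := by
  rcases le_total z.im 0 with h | h
  · left
    apply Complex.ext
    · rfl
    · change -|z.im| = z.im
      rw [abs_of_nonpos h, neg_neg]
  · right
    apply Complex.ext
    · change z.re = _
      simp
    · change -|z.im| = _
      rw [abs_of_nonneg h]
      simp

/-- The first function along the loop, with positive real part after rotation. -/
noncomputable def P (φ : ℝ) : ℂ := Complex.I * (mi - low (zl φ)) * Complex.exp (-(φ * Complex.I))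

lemma P_re (φ : ℝ) : 0 < (P φ).re := by
  have e : Complex.exp (-(φ * Complex.I)) = ⟨Real.cos φ, -Real.sin φ⟩ := by
    apply Complex.ext
    · have : (-(φ * Complex.I) : ℂ) = ((-φ : ℝ) : ℂ) * Complex.I := by push_cast; ring
      rw [this, Complex.exp_ofReal_mul_I_re, Real.cos_neg]
    · have : (-(φ * Complex.I) : ℂ) = ((-φ : ℝ) : ℂ) * Complex.I := by push_cast; ring
      rw [this, Complex.exp_ofReal_mul_I_im, Real.sin_neg]
  have h1 : (P φ).re = Real.cos φ * (1 - |3 / 2 * Real.cos φ - 1|) + 3 / 2 * Real.sin φ * Real.sin φ := by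
    unfold P
    rw [e]
    simp [mi, low, zl]
    ring
  rw [h1]
  have h2 := Real.sin_sq_add_cos_sq φ
  have h3 := Real.cos_le_one φ
  rcases le_total (3 / 2 * Real.cos φ - 1) 0 with h | h
  · rw [abs_of_nonpos h]
    nlinarith
  · rw [abs_of_nonneg h]
    nlinarith

/-- The second function along the loop. -/
noncomputable def Q (φ : ℝ) : ℂ := Complex.I * (mi - cj (zl φ))

lemma Q_re (φ : ℝ) : 0 < (Q φ).re := by
  have h1 : (Q φ).re = 2 - 3 / 2 * Real.cos φ := by
    simp [Q, mi, zl]
    ring
  rw [h1]
  have h3 := Real.cos_le_one φ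
  linarith

lemma Q_zl {φ ψ : ℝ} (h : zl φ = zl ψ) : Q φ = Q ψ := by
  rw [Q, Q, h]

theorem not_quasifibration (m : ℕ) : ¬ IsQuasifibration cj (m + 1) := by
  intro hq
  have hex := hq (Y (m + 1) ⟨zl 0, zl_re 0⟩) (by
    intro j v z hz
    have h := (mk_eq_iff cj_cj _ _).1 (show (Quot.mk _ (v0, zc (zl 0) j) : Bor cj) = Quot.mk _ (v, z) from hz)
    have hz' : (zc (zl 0) j).im ≠ 0 := by
      unfold zc
      split_ifs
      · simp [zl]
        norm_num
      · exact one_ne_zero
    have him : z.im ≠ 0 := by
      rcases h with h | h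
      · have := congrArg Prod.snd h
        simp only at this
        rw [this]
        exact hz'
      · have := congrArg Prod.snd h
        simp only [flip] at this
        rw [this]
        simpa using hz'
    intro h'
    have := congrArg Complex.im h'
    simp only [cj, Complex.conj_im] at this
    exact him (by linarith)) ⟨Quot.mk _ (v0, mi), mi_ne 0⟩
  obtain ⟨δ, hE, -, -, -⟩ := hex
  obtain ⟨c, hc⟩ := (hE 0 (Quotient.mk _ (β (m + 1)))).1 (forget_β (m + 1))
  clear hE
  induction c using Quotient.inductionOn with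
  | h d =>
  have hh := Quotient.exact hc
  obtain ⟨F'⟩ := hh
  let F := F'.symm
  -- coordinates
  let K0 : C(I × (Fin 1 → I), Bor cj) :=
    ⟨fun p => (F p).1 0, (continuous_apply _).comp (continuous_subtype_val.comp F.continuous)⟩
  let K1 : C(I × (Fin 1 → I), Bor cj) :=
    ⟨fun p => (F p).1 (Fin.last (m + 1)), (continuous_apply _).comp (continuous_subtype_val.comp F.continuous)⟩
  have cov := isCovering_mk cj_cont cj_cj
  let f0 : C(Fin 1 → I, E × ℂ) :=
    ⟨fun a => (v0, zl (ang a)), continuous_const.prodMk (continuous_zl.comp continuous_ang)⟩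
  let f1 : C(Fin 1 → I, E × ℂ) := ⟨fun _ => (v0, mi), continuous_const⟩
  have F0 : ∀ a, F (0, a) = Z (m + 1) (ang a) := fun a => F.apply_zero a
  have F1 : ∀ a, F (1, a) = incl (Y (m + 1) ⟨zl 0, zl_re 0⟩) (d.1 a) := fun a => F.apply_one a
  have Fb : ∀ s, ∀ a ∈ Cube.boundary (Fin 1), F (s, a) = Z (m + 1) 0 := fun s a ha => by
    have h1 : F (s, a) = Z (m + 1) (ang a) := F.eq_fst s ha
    rw [h1, Z_ang_boundary _ a ha]
  have zero_cast : (0 : Fin (m + 2)) = Fin.castSucc (0 : Fin (m + 1)) := (Fin.castSucc_zero).symm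
  have Z0 : ∀ φ, (Z (m + 1) φ).1 0 = Quot.mk _ (v0, zl φ) := fun φ => by
    rw [zero_cast, Z_cast]
    rfl
  have H0 : ∀ a, K0 (0, a) = Quot.mk _ (f0 a) := fun a => by
    change (F (0, a)).1 0 = _
    rw [F0, Z0]
    rfl
  have H1 : ∀ a, K1 (0, a) = Quot.mk _ (f1 a) := fun a => by
    change (F (0, a)).1 (Fin.last (m + 1)) = _
    rw [F0, Z_last]
    rfl
  let L0 := cov.liftHomotopy K0 f0 H0
  let L1 := cov.liftHomotopy K1 f1 H1
  have l0 : ∀ p, (Quot.mk _ (L0 p) : Bor cj) = K0 p := fun p => congrFun (cov.liftHomotopy_lifts K0 f0 H0) p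
  have l1 : ∀ p, (Quot.mk _ (L1 p) : Bor cj) = K1 p := fun p => congrFun (cov.liftHomotopy_lifts K1 f1 H1) p
  have l00 : ∀ a, L0 (0, a) = f0 a := fun a => cov.liftHomotopy_zero K0 f0 H0 a
  have l10 : ∀ a, L1 (0, a) = f1 a := fun a => cov.liftHomotopy_zero K1 f1 H1 a
  have b0 : ∀ s, ∀ a ∈ Cube.boundary (Fin 1), L0 (s, a) = f0 a := fun s a ha => by
    rw [← l00 a]
    refine cov.const_of_comp (g := fun s : I => L0 (s, a)) (L0.continuous.comp (by fun_prop)) ?_ s 0
    intro s t
    rw [l0, l0]
    change (F (s, a)).1 0 = (F (t, a)).1 0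
    rw [Fb s a ha, Fb t a ha]
  have b1 : ∀ s, ∀ a ∈ Cube.boundary (Fin 1), L1 (s, a) = f1 a := fun s a ha => by
    rw [← l10 a]
    refine cov.const_of_comp (g := fun s : I => L1 (s, a)) (L1.continuous.comp (by fun_prop)) ?_ s 0
    intro s t
    rw [l1, l1]
    change (F (s, a)).1 (Fin.last (m + 1)) = (F (t, a)).1 (Fin.last (m + 1))
    rw [Fb s a ha, Fb t a ha]
  let a0 : Fin 1 → I := fun _ => 0
  let a1 : Fin 1 → I := fun _ => 1
  have ha0 : a0 ∈ Cube.boundary (Fin 1) := ⟨0, Or.inl rfl⟩
  have ha1 : a1 ∈ Cube.boundary (Fin 1) := ⟨0, Or.inr rfl⟩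
  have e0 : ∀ a, L0 (1, a) = (v0, zl 0) := fun a => by
    have h2 : L0 (1, a0) = (v0, zl 0) := by
      rw [b0 1 a0 ha0]
      change (v0, zl (ang a0)) = _
      rw [zl_ang_boundary a0 ha0]
    rw [← h2]
    refine cov.const_of_comp (g := fun a : Fin 1 → I => L0 (1, a)) (L0.continuous.comp (by fun_prop)) ?_ a a0
    intro a b
    rw [l0, l0]
    change (F (1, a)).1 0 = (F (1, b)).1 0
    rw [F1, F1, zero_cast]
    exact (incl_cast _ _ _).trans (incl_cast _ _ _).symm
  have sep : ∀ p, (L0 p).2 ≠ (L1 p).2 ∧ cj (L0 p).2 ≠ (L1 p).2 := by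
    intro p
    have h := (F p).2 0 (Fin.last (m + 1)) (by
      intro h
      have := congrArg Fin.val h
      simp at this)
    have h3 : pt cj (Quot.mk _ (L0 p)) ≠ pt cj (Quot.mk _ (L1 p)) := by
      rw [l0, l1]
      exact h
    rw [pt_mk, pt_mk] at h3
    constructor
    · intro h4
      exact h3 ((orb_eq_iff cj_cj _ _).2 (Or.inl h4.symm))
    · intro h4
      exact h3 ((orb_eq_iff cj_cj _ _).2 (Or.inr h4.symm))
  have c0 : Continuous fun p => (L0 p).2 := continuous_snd.comp L0.continuous
  have c1 : Continuous fun p => (L1 p).2 := continuous_snd.comp L1.continuous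
  have key := wind_eq a0 a1 (fun p => (L1 p).2 - low (L0 p).2) (fun p => (L1 p).2 - cj (L0 p).2)
    (c1.sub (continuous_low.comp c0)) (c1.sub (cj_cont.comp c0))
    (by
      intro p h
      rcases low_eq (L0 p).2 with h5 | h5
      · exact (sep p).1 (by rw [← h5]; exact (sub_eq_zero.1 h).symm)
      · exact (sep p).2 (by rw [← h5]; exact (sub_eq_zero.1 h).symm))
    (by
      intro p h
      exact (sep p).2 (sub_eq_zero.1 h).symm)
    (by
      intro a
      simp only [e0 a]
      congr 1
      apply Complex.ext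
      · simp [low]
      · simp [low, zl]
        norm_num)
    (fun a => Complex.log (P (ang a)) + (ang a : ℝ) * Complex.I + Complex.log (-Complex.I))
    (fun a => Complex.log (Q (ang a)) + Complex.log (-Complex.I))
    (by
      refine (Continuous.add (Continuous.clog ?_ fun a => Or.inl (P_re _)) ?_).add continuous_const
      · unfold P
        have h1 : Continuous fun a => low (zl (ang a)) := continuous_low.comp (continuous_zl.comp continuous_ang)
        have h2 := continuous_ang
        fun_prop
      · have h2 := continuous_ang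
        fun_prop)
    (by
      refine Continuous.add (Continuous.clog ?_ fun a => Or.inl (Q_re _)) continuous_const
      unfold Q
      have h1 : Continuous fun a => cj (zl (ang a)) := cj_cont.comp (continuous_zl.comp continuous_ang)
      fun_prop)
    (by
      intro a
      have hP : P (ang a) ≠ 0 := fun h => by
        have := P_re (ang a)
        rw [h] at this
        simp at this
      simp only [l00, l10]
      rw [Complex.exp_add, Complex.exp_add, Complex.exp_log hP, Complex.exp_log (neg_ne_zero.2 Complex.I_ne_zero)]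
      change P (ang a) * Complex.exp ((ang a : ℝ) * Complex.I) * -Complex.I = mi - low (zl (ang a))
      unfold P
      rw [Complex.exp_neg]
      have h6 := Complex.exp_ne_zero (((ang a : ℝ) : ℂ) * Complex.I)
      field_simp
      rw [Complex.I_sq]
      ring)
    (by
      intro a
      have hQ : Q (ang a) ≠ 0 := fun h => by
        have := Q_re (ang a)
        rw [h] at this
        simp at this
      simp only [l00, l10]
      rw [Complex.exp_add, Complex.exp_log hQ, Complex.exp_log (neg_ne_zero.2 Complex.I_ne_zero)]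
      change Q (ang a) * -Complex.I = mi - cj (zl (ang a))
      unfold Q
      have := Complex.I_sq
      linear_combination (-(mi - cj (zl (ang a)))) * this)
    (fun s => by simp only [b0 s a0 ha0, b0 s a1 ha1, b1 s a0 ha0, b1 s a1 ha1, b0 0 a0 ha0, b0 0 a1 ha1,
      b1 0 a0 ha0, b1 0 a1 ha1, and_self])
    (fun s => by simp only [b0 s a0 ha0, b0 s a1 ha1, b1 s a0 ha0, b1 s a1 ha1, b0 0 a0 ha0, b0 0 a1 ha1,
      b1 0 a0 ha0, b1 0 a1 ha1, and_self])
  have z01 : zl (ang a1) = zl (ang a0) := by
    rw [zl_ang_boundary a1 ha1, zl_ang_boundary a0 ha0]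
  have x0 : ang a0 = 0 := by simp [ang, a0]
  have x1 : ang a1 = 2 * Real.pi := by simp [ang, a1]
  have hQ : Q (ang a1) = Q (ang a0) := Q_zl z01
  have hP : P (ang a1) = P (ang a0) := by
    unfold P
    rw [z01, x0, x1]
    congr 1
    push_cast
    rw [Complex.exp_neg, Complex.exp_two_pi_mul_I]
    simp
  rw [hQ, hP, x0, x1] at key
  have h7 : (2 * Real.pi : ℂ) * Complex.I = 0 := by
    push_cast at key
    linear_combination key
  exact Complex.two_pi_I_ne_zero h7

end Pool.Agent.N496.QF
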