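import Pool.Agent.N496.QF.Cover

/-!
# The half-plane with a reflector line
-/

set_option autoImplicit false

namespace Pool.Agent.N496.QF

open scoped Topology unitInterval

/-- complex conjugation -/
noncomputable abbrev cj : ℂ → ℂ := fun z => (starRingEnd ℂ) z

lemma cj_cont : Continuous cj := Complex.continuous_conj

lemma cj_cj (z : ℂ) : cj (cj z) = z := Complex.conj_conj z

/-- a base point of `E` -/
def v0 : E := ⟨fun _ => 1, fun h => one_ne_zero (congrFun h 0)⟩

lemma ptne {z w : ℂ} (h1 : w ≠ z) (h2 : w ≠ cj z) :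
    pt cj (Quot.mk _ (v0, z)) ≠ pt cj (Quot.mk _ (v0, w)) := by
  rw [pt_mk, pt_mk]
  intro h
  rcases (orb_eq_iff cj_cj _ _).1 h with h | h
  · exact h1 h
  · exact h2 h

lemma ptne_re {z w : ℂ} (h : w.re ≠ z.re) :
    pt cj (Quot.mk _ (v0, z)) ≠ pt cj (Quot.mk _ (v0, w)) :=
  ptne (fun h' => h (by rw [h'])) (fun h' => h (by rw [h']; exact Complex.conj_re z))

/-- The points `w`, `10 + i`, `20 + i`, ... -/
noncomputable def zc (w : ℂ) (j : ℕ) : ℂ := if j = 0 then w else ⟨10 * j, 1⟩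

lemma zc_re_ne {w : ℂ} (hw : |w.re| ≤ 3 / 2) {i j : ℕ} (h : i ≠ j) : (zc w j).re ≠ (zc w i).re := by
  have hw' := abs_le.1 hw
  unfold zc
  split_ifs with h1 h2 h2
  · exact absurd (h2.trans h1.symm) h
  · have : (1 : ℝ) ≤ i := by exact_mod_cast Nat.one_le_iff_ne_zero.2 h2
    change w.re ≠ 10 * (i : ℝ)
    intro h3
    linarith [hw'.2]
  · have : (1 : ℝ) ≤ j := by exact_mod_cast Nat.one_le_iff_ne_zero.2 h1
    change 10 * (j : ℝ) ≠ w.re
    intro h3
    linarith [hw'.2]
  · change 10 * (j : ℝ) ≠ 10 * (i : ℝ)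
    intro h3
    have h4 : (j : ℝ) = i := by linarith
    exact h (by exact_mod_cast h4.symm)

/-- The domain of the first point. -/
def Dm : Type := {w : ℂ // |w.re| ≤ 3 / 2}

noncomputable instance : TopologicalSpace Dm := instTopologicalSpaceSubtype

/-- The configuration with first point `w`. -/
noncomputable def Y (n : ℕ) (w : Dm) : PB cj n :=
  ⟨fun j => Quot.mk _ (v0, zc w.1 j), fun _ _ h => ptne_re (zc_re_ne w.2 fun h' => h (Fin.ext h'))⟩

lemma continuous_mk : Continuous fun z : ℂ => (Quot.mk _ (v0, z) : Bor cj) :=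
  continuous_quot_mk.comp (by fun_prop)

lemma continuous_Y (n : ℕ) : Continuous (Y n) := by
  refine Continuous.subtype_mk (continuous_pi fun j => continuous_mk.comp ?_) _
  unfold zc
  by_cases h : (j : ℕ) = 0
  · simp only [h, if_true]
    exact continuous_subtype_val
  · simp only [h, if_false]
    exact continuous_const

/-- The first point moves around `- i`. -/
noncomputable def zl (φ : ℝ) : ℂ := ⟨-(3 / 2 * Real.sin φ), 3 / 2 * Real.cos φ - 1⟩

lemma continuous_zl : Continuous zl := by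
  have h : zl = fun φ => ((-(3 / 2 * Real.sin φ) : ℝ) : ℂ) + ((3 / 2 * Real.cos φ - 1 : ℝ) : ℂ) * Complex.I := by
    funext φ
    apply Complex.ext <;> simp [zl, Complex.sin_ofReal_re, Complex.cos_ofReal_re]
  rw [h]
  fun_prop

lemma zl_re (φ : ℝ) : |(zl φ).re| ≤ 3 / 2 := by
  change |-(3 / 2 * Real.sin φ)| ≤ 3 / 2
  have := Real.abs_sin_le_one φ
  rw [abs_neg, abs_mul]
  norm_num
  linarith

/-- The point `- i`. -/
noncomputable def mi : ℂ := ⟨0, -1⟩

lemma zl_ne1 (φ : ℝ) : zl φ ≠ mi := by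
  intro h
  have h1 := congrArg Complex.re h
  have h2 := congrArg Complex.im h
  simp only [zl, mi] at h1 h2
  have := Real.sin_sq_add_cos_sq φ
  have h3 : Real.sin φ = 0 := by linarith
  have h4 : Real.cos φ = 0 := by linarith
  rw [h3, h4] at this
  norm_num at this

lemma zl_ne2 (φ : ℝ) : zl φ ≠ cj mi := by
  intro h
  have h2 := congrArg Complex.im h
  simp only [zl, mi, cj, Complex.conj_im] at h2
  have := Real.cos_le_one φ
  linarith

lemma mi_ne {n : ℕ} (φ : ℝ) (j : Fin n) :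
    pt cj (Quot.mk _ (v0, mi)) ≠ pt cj ((Y n ⟨zl φ, zl_re φ⟩).1 j) := by
  change pt cj (Quot.mk _ (v0, mi)) ≠ pt cj (Quot.mk _ (v0, zc (zl φ) j))
  unfold zc
  split_ifs with h
  · exact ptne (zl_ne1 φ) (zl_ne2 φ)
  · apply ptne_re
    change 10 * ((j : ℕ) : ℝ) ≠ 0
    have : ((j : ℕ) : ℝ) ≠ 0 := by exact_mod_cast h
    intro h'
    exact this (by linarith)

/-- The configuration with first point `zl φ` and last point `- i`. -/
noncomputable def Z (n : ℕ) (φ : ℝ) : PB cj (n + 1) :=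
  incl (Y n ⟨zl φ, zl_re φ⟩) ⟨Quot.mk _ (v0, mi), mi_ne φ⟩

lemma incl_last {n : ℕ} (y : PB cj n) (b : Fib y) : (incl y b).1 (Fin.last n) = b.1 :=
  Fin.snoc_last (α := fun _ => Bor cj) b.1 y.1

lemma incl_cast {n : ℕ} (y : PB cj n) (b : Fib y) (j : Fin n) : (incl y b).1 j.castSucc = y.1 j :=
  Fin.snoc_castSucc (α := fun _ => Bor cj) b.1 y.1 j

lemma Z_last (n : ℕ) (φ : ℝ) : (Z n φ).1 (Fin.last n) = Quot.mk _ (v0, mi) :=
  incl_last _ _

lemma Z_cast (n : ℕ) (φ : ℝ) (j : Fin n) : (Z n φ).1 j.castSucc = Quot.mk _ (v0, zc (zl φ) j) :=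
  incl_cast _ _ j

lemma continuous_Y_zl (n : ℕ) : Continuous fun φ => Y n ⟨zl φ, zl_re φ⟩ :=
  (continuous_Y n).comp (continuous_zl.subtype_mk _)

lemma continuous_Z (n : ℕ) : Continuous (Z n) := by
  refine Continuous.subtype_mk (f := fun φ => (Z n φ).1) (continuous_pi fun i => ?_) _
  induction i using Fin.lastCases with
  | last =>
    simp only [Z_last]
    exact continuous_const
  | cast j =>
    simp only [Z_cast]
    exact (continuous_apply j).comp (continuous_subtype_val.comp (continuous_Y_zl n))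

lemma zl_two_pi : zl (2 * Real.pi * 1) = zl 0 := by
  simp [zl]

lemma Z_two_pi (n : ℕ) : Z n (2 * Real.pi * 1) = Z n 0 := by
  have : ∀ φ ψ, zl φ = zl ψ → Z n φ = Z n ψ := by
    intro φ ψ h
    apply Subtype.ext
    funext i
    induction i using Fin.lastCases with
    | last => rw [Z_last, Z_last]
    | cast j => rw [Z_cast, Z_cast, h]
  exact this _ _ zl_two_pi

lemma forget_Z (n : ℕ) (φ : ℝ) : forget cj n (Z n φ) = Y n ⟨zl φ, zl_re φ⟩ := by
  apply Subtype.ext
  funext j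
  exact Z_cast n φ j

/-- the angle -/
noncomputable def ang (a : Fin 1 → I) : ℝ := 2 * Real.pi * (a 0 : ℝ)

lemma continuous_ang : Continuous ang := by
  unfold ang
  fun_prop

lemma ang_boundary (a : Fin 1 → I) (h : a ∈ Cube.boundary (Fin 1)) : ang a = 2 * Real.pi * 0 ∨ ang a = 2 * Real.pi * 1 := by
  obtain ⟨i, hi⟩ := h
  have : i = 0 := Subsingleton.elim _ _
  subst this
  rcases hi with hi | hi
  · left
    simp [ang, hi]
  · right
    simp [ang, hi]

lemma zl_ang_boundary (a : Fin 1 → I) (h : a ∈ Cube.boundary (Fin 1)) : zl (ang a) = zl 0 := by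
  rcases ang_boundary a h with h | h
  · rw [h, mul_zero]
  · rw [h, zl_two_pi]

lemma Z_ang_boundary (n : ℕ) (a : Fin 1 → I) (h : a ∈ Cube.boundary (Fin 1)) : Z n (ang a) = Z n 0 := by
  rcases ang_boundary a h with h | h
  · rw [h, mul_zero]
  · rw [h, Z_two_pi]

/-- The loop in `PB_{n+1}(M)`. -/
noncomputable def β (n : ℕ) : GenLoop (Fin 1) (PB cj (n + 1)) (Z n 0) :=
  ⟨⟨fun a => Z n (ang a), (continuous_Z n).comp continuous_ang⟩, fun a h => Z_ang_boundary n a h⟩

/-- straight line -/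
lemma line_re (s : I) (φ : ℝ) : |((1 - (s : ℝ)) * zl φ + (s : ℝ) * zl 0 : ℂ).re| ≤ 3 / 2 := by
  have h1 := abs_le.1 (zl_re φ)
  have h2 := abs_le.1 (zl_re 0)
  have h3 := s.2.1
  have h4 := s.2.2
  have e : ((1 - (s : ℝ)) * zl φ + (s : ℝ) * zl 0 : ℂ).re = (1 - (s : ℝ)) * (zl φ).re + s * (zl 0).re := by
    simp
  rw [e, abs_le]
  constructor <;> nlinarith

lemma forget_β (n : ℕ) : piMap (forget cj n) (Z n 0) 1 (Quotient.mk _ (β n)) = 1 := by
  rw [HomotopyGroup.one_def]
  apply Quotient.sound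
  let F : C(I × (Fin 1 → I), PB cj n) :=
    ⟨fun p => Y n ⟨((1 - (p.1 : ℝ)) * zl (ang p.2) + (p.1 : ℝ) * zl 0 : ℂ), line_re p.1 (ang p.2)⟩, by
      refine (continuous_Y n).comp (Continuous.subtype_mk ?_ _)
      have h1 : Continuous fun p : I × (Fin 1 → I) => zl (ang p.2) :=
        continuous_zl.comp (continuous_ang.comp continuous_snd)
      fun_prop⟩
  refine ⟨⟨⟨F, ?_, ?_⟩, ?_⟩⟩
  · intro a
    have h1 : (forget cj n) (Z n (ang a)) = Y n ⟨zl (ang a), zl_re _⟩ := forget_Z n (ang a)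
    change Y n _ = (forget cj n) (Z n (ang a))
    rw [h1]
    congr 1
    apply Subtype.ext
    simp
  · intro a
    have h1 : (forget cj n) (Z n 0) = Y n ⟨zl 0, zl_re _⟩ := forget_Z n 0
    change Y n _ = (forget cj n) (Z n 0)
    rw [h1]
    congr 1
    apply Subtype.ext
    simp
  · intro s a ha
    have h1 : (forget cj n) (Z n (ang a)) = Y n ⟨zl (ang a), zl_re _⟩ := forget_Z n (ang a)
    change Y n _ = (forget cj n) (Z n (ang a))
    rw [h1]
    congr 1
    apply Subtype.ext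
    change (1 - ((s : ℝ) : ℂ)) * zl (ang a) + ((s : ℝ) : ℂ) * zl 0 = zl (ang a)
    rw [zl_ang_boundary a ha]
    ring

end Pool.Agent.N496.QF
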